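import Pool.Agent.Lib.MP_c7af3c_ag.EDGE.Base

/-!
# MP_c7af3c_ag, project EDGE, tuples (`c ≥ 2`): definitions
See the finding of helper59 (03:20Z Dec 4) and C2/Paper.md.
-/

set_option autoImplicit false

namespace Pool.Agent.Edge.C2

open MvPolynomial WithZero Pool.Agent.Gen Pool.Agent.Sharp Pool.Agent.Lines.H75

/-- linear forms in three variables -/
noncomputable def lin {K : Type} [Field K] (v : Fin 3 → K) : MvPolynomial (Fin 3) K :=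
  ∑ i, C (v i) * X i

/-- tuples of polynomials in three variables -/
abbrev T3 (K : Type) [Field K] (c : ℕ) : Type := Fin c → MvPolynomial (Fin 3) K

/-- extension of scalars of a tuple -/
noncomputable def mp {K : Type} (Ω : Type) [Field K] [Field Ω] [Algebra K Ω] {c : ℕ} (A : T3 K c) :
    T3 Ω c := fun m => MvPolynomial.map (algebraMap K Ω) (A m)

/-- the `2 × 2` matrix `σ_j (l_i A)`, `l_i = X_i - y_i X_0` -/
noncomputable def Ph {K Ω : Type} [Field K] [Field Ω] [Algebra K Ω] {c : ℕ} (y : Fin 3 → Ω)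
    (σ : Fin 2 → T3 Ω c →ₗ[Ω] Ω) (A : T3 K c) (i j : Fin 2) : Ω :=
  σ j ((X i.succ - C (y i.succ) * X 0 : MvPolynomial (Fin 3) Ω) • mp Ω A)

/-- The algebraic core. `f p` is the tuple `(∂_p F_m)|Π`, `g i` the partial derivatives of the
only restriction `F_(m1)|Π` which is not zero, `σ 0`, `σ 1` a basis of `T_B`. -/
structure CoreC {K Ω : Type} [Field K] [Field Ω] [Algebra K Ω] {c : ℕ} (n : ℕ) (a : Fin c → ℕ)
    (m1 : Fin c) (y : Fin 3 → Ω) (σ : Fin 2 → T3 Ω c →ₗ[Ω] Ω) (f : Fin (n + 1) → T3 K c)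
    (g : Fin 3 → MvPolynomial (Fin 3) K) : Prop where
  y0 : y 0 = 1
  yk : ∀ b : Fin 3 → K, ∑ i, algebraMap K Ω (b i) * y i = 0 → b = 0
  yq : ∀ q : MvPolynomial (Fin 3) K, q.IsHomogeneous 2 → aeval y q = 0 → q = 0
  ha : 2 ≤ a m1
  gr : ∀ j m (I : Fin 3 →₀ ℕ), I.degree ≠ a m + 1 → σ j (Pi.single m (monomial I 1)) = 0
  rat : ∀ A : T3 K c, ∃ r : K, algebraMap K Ω r =
    Ph y σ A 0 0 * Ph y σ A 1 1 - Ph y σ A 0 1 * Ph y σ A 1 0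
  nz : ∃ A : T3 K c, Ph y σ A 0 0 * Ph y σ A 1 1 - Ph y σ A 0 1 * Ph y σ A 1 0 ≠ 0
  fh : ∀ p m, (f p m).IsHomogeneous (a m)
  sf : ∀ j p, ∃ r : Ω, ∀ i, σ j ((X i : MvPolynomial (Fin 3) Ω) • mp Ω (f p)) = r * y i
  nsp : ∀ (γ : Fin c → K) (z : Fin 3 → K), z ≠ 0 → (∀ p, ∑ m, γ m * eval z (f p m) = 0) → γ = 0
  gh : ∀ i, (g i).IsHomogeneous (a m1)
  gy : ∑ i, y i * aeval y (g i) = 0
  sg : ∃ β : Fin 2 → Fin 3 → Ω,
    (∀ j l i, σ j (Pi.single m1 (X l * MvPolynomial.map (algebraMap K Ω) (g i))) = β j i * y l) ∧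
    (∀ j, ∑ i, β j i * y i = 0) ∧
    ∃ s : Fin 2 → Ω, ∀ r : Ω, (fun i => ∑ j, s j * β j i) ≠ fun i => r * aeval y (g i)

/-- The typed core: rational bases. `e i j = μ_i σ_j`, `τ = ∑ s_j σ_j` in the component `m1`. -/
structure CoreB {K Ω : Type} [Field K] [Field Ω] [Algebra K Ω] {c : ℕ} (a : Fin c → ℕ)
    (m1 : Fin c) (y : Fin 3 → Ω) (μ : Fin 2 → Fin 3 → Ω) (e : Fin 2 → Fin 2 → T3 K c →ₗ[K] K)
    (s : Fin 2 → Ω) (τ : MvPolynomial (Fin 3) Ω →ₗ[Ω] Ω) (g : Fin 3 → MvPolynomial (Fin 3) K)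
    (β : Fin 3 → Ω) : Prop where
  y0 : y 0 = 1
  yk : ∀ b : Fin 3 → K, ∑ i, algebraMap K Ω (b i) * y i = 0 → b = 0
  yq : ∀ q : MvPolynomial (Fin 3) K, q.IsHomogeneous 2 → aeval y q = 0 → q = 0
  ha : 2 ≤ a m1
  μy : ∀ i, ∑ l, μ i l * y l = 0
  μi : LinearIndependent Ω μ
  rel : ∀ j B, ∑ l, μ 1 l * algebraMap K Ω (e 0 j ((X l : MvPolynomial (Fin 3) K) • B)) =
    ∑ l, μ 0 l * algebraMap K Ω (e 1 j ((X l : MvPolynomial (Fin 3) K) • B))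
  gr : ∀ i j (I : Fin 3 →₀ ℕ), I.degree ≠ a m1 → e i j (Pi.single m1 (monomial I 1)) = 0
  f1 : ∀ ν : Fin 3 → K, (∀ i j (B : MvPolynomial (Fin 3) K), e i j (Pi.single m1 (lin ν * B)) = 0) →
    ν = 0
  f2 : ∀ u : Fin 2 → K, u ≠ 0 → ∀ ν ν' : Fin 3 → K,
    (∀ j B, u 1 * e 0 j (lin ν • B) = u 0 * e 1 j (lin ν • B)) →
    (∀ j B, u 1 * e 0 j (lin ν' • B) = u 0 * e 1 j (lin ν' • B)) → ¬ LinearIndependent K ![ν, ν']
  gh : ∀ i, (g i).IsHomogeneous (a m1)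
  gy : ∑ i, y i * aeval y (g i) = 0
  τe : ∀ i (A : MvPolynomial (Fin 3) K), τ (lin (μ i) * MvPolynomial.map (algebraMap K Ω) A) =
    ∑ j, s j * algebraMap K Ω (e i j (Pi.single m1 A))
  τg : ∀ l i, τ (X l * MvPolynomial.map (algebraMap K Ω) (g i)) = β i * y l
  by0 : ∑ i, β i * y i = 0
  bne : ∀ r : Ω, β ≠ fun i => r * aeval y (g i)

/-- the data over `(Ω, k)` in the exceptional case -/
structure PlC {Ω : Type} [Field Ω] (k : Subfield Ω) {n c : ℕ} {d : Fin c → ℕ}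
    (D : DSys Ω n c d) (x : Fin (n + 1) → Ω) (j0 : Fin (n + 1)) (e : ℕ)
    (ε : (Unit ⊕ (Fin e ⊕ Fin e)) ⊕ Fin c ≃ Fin (n + 1)) (t : Fin 3 → Fin (n + 1))
    (P : Fin 3 → Fin (n + 1) → Ω) (m1 : Fin c) : Prop where
  hj0 : x j0 = 1
  h0 : ∀ m, eval x (D.F m) = 0
  kF : ∀ m I, coeff I (D.F m) ∈ k
  w0 : W0 D x
  pl : PlaneP k D x j0 e ε t P
  yq : ∀ q : MvPolynomial (Fin 3) Ω, q.IsHomogeneous 2 → (∀ I, coeff I q ∈ k) →
    eval (fun i => x (t i)) q = 0 → q = 0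
  f0 : ∀ m, m ≠ m1 → resP P (D.F m) = 0
  d1 : 3 ≤ d m1

end Pool.Agent.Edge.C2
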