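import Pool.Agent.Lib.MP_c7af3c_ag.EDGE.C2.Base
import Pool.Agent.Lib.MP_c7af3c_ag.EDGE.Iface

/-!
# MP_c7af3c_ag, project EDGE, tuples (`c ≥ 2`): module statements
Each owner proves `theorem xyz : XyzStatement` in EDGE/C2/Hnn/Xyz.lean (namespace
Pool.Agent.Edge.C2.Hnn).
-/

set_option autoImplicit false

namespace Pool.Agent.Edge.C2

open MvPolynomial WithZero Pool.Agent.Gen Pool.Agent.Sharp Pool.Agent.Lines.H75

/-! ### algebraic closure -/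

/-- Module LD: elements of `Ω` which are independent over the relatively algebraically closed
field `k` are independent over its algebraic closure `K` in the algebraic closure of `Ω`. -/
def LdStatement : Prop := ∀ (Ω : Type) [Field Ω] [CharZero Ω] (k : Subfield Ω),
  (∀ (z : Ω) (p : Polynomial Ω), p ≠ 0 → (∀ i, p.coeff i ∈ k) → p.eval z = 0 → z ∈ k) →
  ∃ K : Subfield (AlgebraicClosure Ω), IsAlgClosed K ∧
    (∀ z ∈ k, algebraMap Ω (AlgebraicClosure Ω) z ∈ K) ∧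
    ∀ (N : ℕ) (y : Fin N → Ω),
      (∀ a : Fin N → Ω, (∀ i, a i ∈ k) → ∑ i, a i * y i = 0 → a = 0) →
      ∀ a : Fin N → AlgebraicClosure Ω, (∀ i, a i ∈ K) →
        ∑ i, a i * algebraMap Ω (AlgebraicClosure Ω) (y i) = 0 → a = 0

/-- Module DEX: the derivations extend to the algebraic closure. -/
def DexStatement : Prop := ∀ (Ω : Type) [Field Ω] [CharZero Ω] (n c : ℕ) (d : Fin c → ℕ)
  (D : DSys Ω n c d), ∃ D' : DSys (AlgebraicClosure Ω) n c d,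
    (∀ m, D'.F m = MvPolynomial.map (algebraMap Ω (AlgebraicClosure Ω)) (D.F m)) ∧
    ∀ m I (z : Ω), D'.del m I (algebraMap Ω (AlgebraicClosure Ω) z) =
      algebraMap Ω (AlgebraicClosure Ω) (D.del m I z)

/-- Module UP: the data can be extended to an algebraically closed `K`. -/
def UpStatement : Prop := LdStatement → DexStatement →
  ∀ (Ω : Type) [Field Ω] [CharZero Ω] (k : Subfield Ω) (n c e : ℕ) (d : Fin c → ℕ)
  (D : DSys Ω n c d) (x : Fin (n + 1) → Ω) (j0 : Fin (n + 1))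
  (ε : (Unit ⊕ (Fin e ⊕ Fin e)) ⊕ Fin c ≃ Fin (n + 1)) (t : Fin 3 → Fin (n + 1))
  (P : Fin 3 → Fin (n + 1) → Ω) (m1 : Fin c),
  (∀ (z : Ω) (p : Polynomial Ω), p ≠ 0 → (∀ i, p.coeff i ∈ k) → p.eval z = 0 → z ∈ k) →
  PlC k D x j0 e ε t P m1 →
  ∃ (Ω' : Type) (_ : Field Ω') (_ : CharZero Ω') (_ : IsAlgClosed Ω') (K : Subfield Ω')
    (D' : DSys Ω' n c d) (x' : Fin (n + 1) → Ω') (P' : Fin 3 → Fin (n + 1) → Ω'),
    IsAlgClosed K ∧ PlC K D' x' j0 e ε t P' m1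

/-! ### geometry -/

/-- Module NSC: smoothness of every subsystem. -/
def NscStatement : Prop := ∀ (Ω : Type) [Field Ω] (n c : ℕ) (d : Fin c → ℕ)
  (D : DSys Ω n c d) (z : Fin (n + 1) → Ω) (γ : Fin c → Ω), z ≠ 0 →
  (∀ m, γ m ≠ 0 → eval z (D.F m) = 0) →
  (∀ p, ∑ m, γ m * eval z (pderiv p (D.F m)) = 0) → γ = 0

/-- Module NOFC: the dimension count (from EDGE/H65/NoFactor.lean, `nofactor_gen`). -/
def NofcStatement : Prop := ∀ (Ω : Type) [Field Ω] [CharZero Ω] (n c e : ℕ) (d : Fin c → ℕ)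
  (D : DSys Ω n c d) (t : Fin 3 → Fin (n + 1)) (P : Fin 3 → Fin (n + 1) → Ω), 1 ≤ e →
  n = 2 * e + c → ∑ m, d m = 3 * e + 1 + c → Function.Injective t →
  (∀ i j, P i (t j) = if i = j then 1 else 0) →
  ∀ (g : MvPolynomial (Fin 3) Ω) (δ : ℕ), g.IsHomogeneous δ → g ≠ 0 → 2 ≤ δ →
  (∀ m, g ∣ resP P (D.F m)) →
  4 ≤ δ ∧ ∃ m1, δ ≤ d m1 ∧ ∀ m, m ≠ m1 → resP P (D.F m) = 0

/-- Module BEZC: the form of minimal degree over `k` which vanishes at `y` divides all forms over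
`k` which vanish at `y`. -/
def BezcStatement : Prop := ∀ (Ω : Type) [Field Ω] [CharZero Ω] (k : Subfield Ω) (y : Fin 3 → Ω),
  (∀ (z : Ω) (p : Polynomial Ω), p ≠ 0 → (∀ i, p.coeff i ∈ k) → p.eval z = 0 → z ∈ k) →
  y 0 = 1 → (∀ a : Fin 3 → Ω, (∀ i, a i ∈ k) → ∑ i, a i * y i = 0 → a = 0) →
  ∀ (f : MvPolynomial (Fin 3) Ω) (r : ℕ), f.IsHomogeneous r → (∀ I, coeff I f ∈ k) → f ≠ 0 →
  eval y f = 0 →
  ∃ (g : MvPolynomial (Fin 3) Ω) (δ : ℕ), g.IsHomogeneous δ ∧ g ≠ 0 ∧ 2 ≤ δ ∧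
    ∀ (B : MvPolynomial (Fin 3) Ω) (b : ℕ), B.IsHomogeneous b → (∀ I, coeff I B ∈ k) →
      eval y B = 0 → g ∣ B

/-- Module PASC: from the plane to the algebraic core. -/
def PascStatement : Prop := OmegaStatement → NscStatement →
  ∀ (Ω : Type) [Field Ω] [CharZero Ω] (k : Subfield Ω) (n c e : ℕ) (d : Fin c → ℕ)
  (D : DSys Ω n c d) (x : Fin (n + 1) → Ω) (j0 : Fin (n + 1))
  (ε : (Unit ⊕ (Fin e ⊕ Fin e)) ⊕ Fin c ≃ Fin (n + 1)) (t : Fin 3 → Fin (n + 1))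
  (P : Fin 3 → Fin (n + 1) → Ω) (m1 : Fin c), 1 ≤ e → n = 2 * e + c → (∀ m, 1 ≤ d m) →
  PlC k D x j0 e ε t P m1 →
  ∃ (σ : Fin 2 → T3 Ω c →ₗ[Ω] Ω) (f : Fin (n + 1) → T3 k c)
    (g : Fin 3 → MvPolynomial (Fin 3) k),
    CoreC (K := k) n (fun m => d m - 1) m1 (fun i => x (t i)) σ f g

/-! ### algebra -/

/-- Module RATB: rational bases. -/
def RatbStatement : Prop := ∀ (K Ω T : Type) [Field K] [Field Ω] [CharZero K] [Algebra K Ω]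
  [IsAlgClosed K] [AddCommGroup T] [Module K T] (Φ : Fin 2 → Fin 2 → T →+ Ω),
  (∀ i j (r : K) (A : T), Φ i j (r • A) = algebraMap K Ω r * Φ i j A) →
  (∀ A : T, ∃ r : K, algebraMap K Ω r = Φ 0 0 A * Φ 1 1 A - Φ 0 1 A * Φ 1 0 A) →
  (∃ A : T, Φ 0 0 A * Φ 1 1 A - Φ 0 1 A * Φ 1 0 A ≠ 0) →
  (∀ u s : Fin 2 → Ω, u ≠ 0 → s ≠ 0 → ∃ A, ∑ i, ∑ j, u i * s j * Φ i j A ≠ 0) →
  ∃ (U S : Matrix (Fin 2) (Fin 2) Ω) (e : Fin 2 → Fin 2 → T →ₗ[K] K), U.det ≠ 0 ∧ S.det ≠ 0 ∧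
    ∀ i j A, algebraMap K Ω (e i j A) = ∑ i', ∑ j', U i i' * S j j' * Φ i' j' A

/-- Module STAR: no product `μ σ` vanishes. -/
def StarStatement : Prop := ∀ (K Ω : Type) [Field K] [Field Ω] [CharZero K] [Algebra K Ω]
  [IsAlgClosed K] (n c : ℕ) (a : Fin c → ℕ) (m1 : Fin c) (y : Fin 3 → Ω)
  (σ : Fin 2 → T3 Ω c →ₗ[Ω] Ω) (f : Fin (n + 1) → T3 K c)
  (g : Fin 3 → MvPolynomial (Fin 3) K), CoreC n a m1 y σ f g →
  ∀ (u s : Fin 2 → Ω), u ≠ 0 → s ≠ 0 → ∃ A : T3 K c, ∑ i, ∑ j, u i * s j * Ph y σ A i j ≠ 0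

/-- Module CB: from the core to rational bases. -/
def CbStatement : Prop := StarStatement → RatbStatement →
  ∀ (K Ω : Type) [Field K] [Field Ω] [CharZero K] [Algebra K Ω]
  [IsAlgClosed K] (n c : ℕ) (a : Fin c → ℕ) (m1 : Fin c) (y : Fin 3 → Ω)
  (σ : Fin 2 → T3 Ω c →ₗ[Ω] Ω) (f : Fin (n + 1) → T3 K c)
  (g : Fin 3 → MvPolynomial (Fin 3) K), CoreC n a m1 y σ f g →
  ∃ (μ : Fin 2 → Fin 3 → Ω) (e : Fin 2 → Fin 2 → T3 K c →ₗ[K] K) (s : Fin 2 → Ω)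
    (τ : MvPolynomial (Fin 3) Ω →ₗ[Ω] Ω) (β : Fin 3 → Ω), CoreB a m1 y μ e s τ g β

/-- Module LLD: the space `LL` has dimension 3 and is the graph of an endomorphism (after a
change of basis of the `μ`). -/
def LldStatement : Prop := ∀ (K Ω : Type) [Field K] [Field Ω] [CharZero K] [Algebra K Ω]
  [IsAlgClosed K] (c : ℕ) (a : Fin c → ℕ) (m1 : Fin c) (y : Fin 3 → Ω)
  (μ : Fin 2 → Fin 3 → Ω) (e : Fin 2 → Fin 2 → T3 K c →ₗ[K] K) (s : Fin 2 → Ω)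
  (τ : MvPolynomial (Fin 3) Ω →ₗ[Ω] Ω) (g : Fin 3 → MvPolynomial (Fin 3) K) (β : Fin 3 → Ω),
  CoreB a m1 y μ e s τ g β →
  ∃ (μ' : Fin 2 → Fin 3 → Ω) (e' : Fin 2 → Fin 2 → T3 K c →ₗ[K] K)
    (T : (Fin 3 → K) →ₗ[K] (Fin 3 → K)), CoreB a m1 y μ' e' s τ g β ∧
    (∀ j (ν : Fin 3 → K) B, e' 0 j (lin ν • B) = e' 1 j (lin (T ν) • B)) ∧
    ∀ l, μ' 0 l = ∑ i, algebraMap K Ω (T (Pi.single i 1) l) * μ' 1 i

/-- Module ENDC: the end. -/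
def EndcStatement : Prop := ∀ (K Ω : Type) [Field K] [Field Ω] [CharZero K] [Algebra K Ω]
  [IsAlgClosed K] [IsAlgClosed Ω] (c : ℕ) (a : Fin c → ℕ) (m1 : Fin c) (y : Fin 3 → Ω)
  (μ : Fin 2 → Fin 3 → Ω) (e : Fin 2 → Fin 2 → T3 K c →ₗ[K] K) (s : Fin 2 → Ω)
  (τ : MvPolynomial (Fin 3) Ω →ₗ[Ω] Ω) (g : Fin 3 → MvPolynomial (Fin 3) K) (β : Fin 3 → Ω)
  (T : (Fin 3 → K) →ₗ[K] (Fin 3 → K)), CoreB a m1 y μ e s τ g β →
  (∀ j (ν : Fin 3 → K) B, e 0 j (lin ν • B) = e 1 j (lin (T ν) • B)) →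
  (∀ l, μ 0 l = ∑ i, algebraMap K Ω (T (Pi.single i 1) l) * μ 1 i) → False

/-- Module ASMC: the height inequality in the borderline case, any number of equations. -/
def AsmcStatement : Prop := DichStatement → TauStatement → SblStatement → UltraStatement →
  NlStatement → PlemStatement → OmegaStatement → PlaneStatement → LdStatement → DexStatement →
  UpStatement → NscStatement → NofcStatement → BezcStatement → PascStatement → RatbStatement →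
  StarStatement → CbStatement → LldStatement → EndcStatement →
  ∀ (n c e : ℕ) (d : Fin c → ℕ), 1 ≤ e → (∀ m, 1 ≤ d m) → n = 2 * e + c →
  ∑ m, d m = 3 * e + 1 + c →
  (∃ M : ℕ, (∀ m, d m ≤ M) ∧ 2 * M ≤ ∑ m, d m * (d m - 1) / 2) → ∀ j0, HBE n c d j0

end Pool.Agent.Edge.C2
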